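import Pool.Agent.Y121.ZI.Stm

/-!
# Numerically trivial operators (NUM)
-/

set_option autoImplicit false

open scoped TensorProduct

universe u v w

namespace Pool.Agent.Y564.ZI

open Module Pool.Agent.Y133.Half Pool.Agent.Y121.ZI Pool.Agent.Y121.ZI.NCTheory

section

variable {K : Type u} [Field K] {T : NCTheory.{u, v, w} K}

/-- The trace identity. -/
theorem num_key {X Z Z' : T.Obj} {c : T.H T.one →ₗ[K] T.H (T.ten Z Z')}
    {d : T.H (T.ten Z Z') →ₗ[K] T.H T.one}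
    (hcd : ∀ b : T.H Z →ₗ[K] T.H Z, d (ex b (LinearMap.id : T.H Z' →ₗ[K] T.H Z') (c T.e)) =
      LinearMap.trace K (T.H Z) (T.par Z ∘ₗ LinearMap.id ∘ₗ b) • T.e)
    {ρ : T.H (T.ten X T.one) →ₗ[K] T.H X} {ρ' : T.H X →ₗ[K] T.H (T.ten X T.one)}
    (hρ1 : ∀ x : T.H X, ρ (kx x T.e) = x) (hρ2 : ∀ x : T.H X, ρ' x = kx x T.e)
    {α : T.H (T.ten (T.ten X Z) Z') →ₗ[K] T.H (T.ten X (T.ten Z Z'))}
    {α' : T.H (T.ten X (T.ten Z Z')) →ₗ[K] T.H (T.ten (T.ten X Z) Z')}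
    (hα1 : ∀ (x : T.H X) (y : T.H Z) (z : T.H Z'), α (kx (kx x y) z) = kx x (kx y z))
    (hα2 : ∀ (x : T.H X) (y : T.H Z) (z : T.H Z'), α' (kx x (kx y z)) = kx (kx x y) z)
    (w : T.H (T.ten X Z) →ₗ[K] T.H (T.ten X Z)) :
      LinearMap.trace K (T.H X) (T.par X ∘ₗ ρ ∘ₗ
        ex (LinearMap.id : T.H X →ₗ[K] T.H X) d ∘ₗ α ∘ₗ
          ex w (LinearMap.id : T.H Z' →ₗ[K] T.H Z') ∘ₗ α' ∘ₗ
          ex (LinearMap.id : T.H X →ₗ[K] T.H X) c ∘ₗ ρ') =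
        LinearMap.trace K (T.H (T.ten X Z)) (T.par (T.ten X Z) ∘ₗ w) := by
  induction w using end_induction with
  | h0 x b =>
    have h1 : ρ ∘ₗ ex (LinearMap.id : T.H X →ₗ[K] T.H X) d ∘ₗ α ∘ₗ
        ex (ex x b) (LinearMap.id : T.H Z' →ₗ[K] T.H Z') ∘ₗ α' ∘ₗ
        ex (LinearMap.id : T.H X →ₗ[K] T.H X) c ∘ₗ ρ' =
        LinearMap.trace K (T.H Z) (T.par Z ∘ₗ LinearMap.id ∘ₗ b) • x := by
      apply LinearMap.ext
      intro y
      have h2 : α ∘ₗ ex (ex x b) (LinearMap.id : T.H Z' →ₗ[K] T.H Z') ∘ₗ α' =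
          ex x (ex b (LinearMap.id : T.H Z' →ₗ[K] T.H Z')) := by
        apply kx_ext₃'
        intro p q r
        simp only [LinearMap.comp_apply, hα2, ex_kx, hα1]
      have h3 : (α ∘ₗ ex (ex x b) (LinearMap.id : T.H Z' →ₗ[K] T.H Z') ∘ₗ α') (kx y (c T.e)) =
          kx (x y) (ex b (LinearMap.id : T.H Z' →ₗ[K] T.H Z') (c T.e)) := by
        rw [h2, ex_kx]
      simp only [LinearMap.comp_apply] at h3 ⊢
      rw [hρ2, ex_kx, LinearMap.id_apply, h3, ex_kx, LinearMap.id_apply, hcd, kx_smul_right,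
        map_smul, hρ1, LinearMap.smul_apply]
    rw [h1, par_ex, ex_comp, trace_ex, LinearMap.comp_smul, LinearMap.id_comp,
      map_smul, smul_eq_mul, mul_comm]
  | ha u v hu hv =>
    simp only [ex_add_left, LinearMap.add_comp, LinearMap.comp_add, map_add] at hu hv ⊢
    rw [hu, hv]

end

variable {K : Type u} [Field K] [CharZero K] (T : NCTheory.{u, v, w} K)

/-- NUM1. Numerically trivial operators form an ideal. -/
theorem num1 : SNum1 T := by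
  intro X Y Z
  refine ⟨fun u hu g hg => ⟨S_comp hu.1 hg, fun v hv => ?_⟩,
    fun u hu g hg => ⟨S_comp hg hu.1, fun v hv => ?_⟩⟩
  · exact hu.2 (v ∘ₗ g) (S_comp hg hv)
  · have e1 : T.par X ∘ₗ v ∘ₗ u ∘ₗ g = (T.par X ∘ₗ v ∘ₗ u) ∘ₗ g := rfl
    rw [e1, LinearMap.trace_comp_comm']
    have e2 : g ∘ₗ T.par X ∘ₗ v ∘ₗ u = (g ∘ₗ T.par X) ∘ₗ v ∘ₗ u := rfl
    rw [e2, S_par hg]
    exact hu.2 (g ∘ₗ v) (S_comp hv hg)

/-- Numerically trivial operators and external products with the identity on the right. -/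
theorem num2a (h : SDual2 T) (X Y Q : T.Obj) (u : T.H X →ₗ[K] T.H Y) (hu : u ∈ Nn X Y) :
    ex u (LinearMap.id : T.H Q →ₗ[K] T.H Q) ∈ Nn (T.ten X Q) (T.ten Y Q) := by
  refine ⟨S_ex hu.1 S_id, fun v hv => ?_⟩
  obtain ⟨c, hc, d, hd, hcd⟩ := (h Q).1
  obtain ⟨ρ, hρ, ρ', -, hρ1, hρ2⟩ := exists_runit X
  obtain ⟨-, -, σ', hσ', -, hσ2⟩ := exists_runit Y
  obtain ⟨α, hα, α', -, hα1, hα2⟩ := exists_assoc X Q (T.op Q)
  obtain ⟨-, -, β', hβ', -, hβ2⟩ := exists_assoc Y Q (T.op Q)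
  rw [← num_key hcd hρ1 hρ2 hα1 hα2]
  -- naturality
  have n1 : ex (LinearMap.id : T.H (T.op Q) →ₗ[K] T.H (T.op Q)) (LinearMap.id :
      T.H (T.op Q) →ₗ[K] T.H (T.op Q)) = LinearMap.id := ex_id
  have n2 : ex (ex u (LinearMap.id : T.H Q →ₗ[K] T.H Q))
      (LinearMap.id : T.H (T.op Q) →ₗ[K] T.H (T.op Q)) ∘ₗ α' ∘ₗ
        ex (LinearMap.id : T.H X →ₗ[K] T.H X) c ∘ₗ ρ' =
      β' ∘ₗ ex (LinearMap.id : T.H Y →ₗ[K] T.H Y) c ∘ₗ σ' ∘ₗ u := by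
    have n3 : ex (ex u (LinearMap.id : T.H Q →ₗ[K] T.H Q))
        (LinearMap.id : T.H (T.op Q) →ₗ[K] T.H (T.op Q)) ∘ₗ α' =
        β' ∘ₗ ex u (LinearMap.id : T.H (T.ten Q (T.op Q)) →ₗ[K] T.H (T.ten Q (T.op Q))) := by
      apply kx_ext₃'
      intro x y z
      simp only [LinearMap.comp_apply, hα2, hβ2, ex_kx, LinearMap.id_apply]
    apply LinearMap.ext
    intro x
    have n4 := congrArg (fun F => F (kx x (c T.e))) n3
    simp only [LinearMap.comp_apply, ex_kx, LinearMap.id_apply] at n4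
    simp only [LinearMap.comp_apply, hρ2, hσ2, ex_kx, LinearMap.id_apply]
    exact n4
  have e1 : ex (v ∘ₗ ex u (LinearMap.id : T.H Q →ₗ[K] T.H Q))
      (LinearMap.id : T.H (T.op Q) →ₗ[K] T.H (T.op Q)) =
      ex v (LinearMap.id : T.H (T.op Q) →ₗ[K] T.H (T.op Q)) ∘ₗ
        ex (ex u (LinearMap.id : T.H Q →ₗ[K] T.H Q))
          (LinearMap.id : T.H (T.op Q) →ₗ[K] T.H (T.op Q)) := by
    rw [ex_comp, LinearMap.id_comp]
  have e2 : T.par X ∘ₗ ρ ∘ₗ ex (LinearMap.id : T.H X →ₗ[K] T.H X) d ∘ₗ α ∘ₗ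
      ex (v ∘ₗ ex u (LinearMap.id : T.H Q →ₗ[K] T.H Q))
        (LinearMap.id : T.H (T.op Q) →ₗ[K] T.H (T.op Q)) ∘ₗ α' ∘ₗ
        ex (LinearMap.id : T.H X →ₗ[K] T.H X) c ∘ₗ ρ' =
      T.par X ∘ₗ (ρ ∘ₗ ex (LinearMap.id : T.H X →ₗ[K] T.H X) d ∘ₗ α ∘ₗ
        ex v (LinearMap.id : T.H (T.op Q) →ₗ[K] T.H (T.op Q)) ∘ₗ β' ∘ₗ
          ex (LinearMap.id : T.H Y →ₗ[K] T.H Y) c ∘ₗ σ') ∘ₗ u := by
    rw [e1]
    calc _ = T.par X ∘ₗ ρ ∘ₗ ex (LinearMap.id : T.H X →ₗ[K] T.H X) d ∘ₗ α ∘ₗ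
        ex v (LinearMap.id : T.H (T.op Q) →ₗ[K] T.H (T.op Q)) ∘ₗ
        (ex (ex u (LinearMap.id : T.H Q →ₗ[K] T.H Q))
          (LinearMap.id : T.H (T.op Q) →ₗ[K] T.H (T.op Q)) ∘ₗ α' ∘ₗ
          ex (LinearMap.id : T.H X →ₗ[K] T.H X) c ∘ₗ ρ') := rfl
      _ = _ := by rw [n2]; rfl
  rw [e2]
  exact hu.2 _ (S_comp (S_comp (S_comp (S_comp (S_comp (S_comp hσ' (S_ex S_id hc)) hβ')
    (S_ex hv S_id)) hα) (S_ex S_id hd)) hρ)

/-- NUM2. Numerically trivial operators and external products. -/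
theorem num2 (h : SDual2 T) : SNum2 T := by
  intro X Y Q u hu
  refine ⟨num2a T h X Y Q u hu, ?_⟩
  obtain ⟨s, hs, h1⟩ := exists_swap Q X
  obtain ⟨s', hs', h2⟩ := exists_swap Y Q
  have key : ex (LinearMap.id : T.H Q →ₗ[K] T.H Q) u =
      (s' ∘ₗ ex u (LinearMap.id : T.H Q →ₗ[K] T.H Q)) ∘ₗ s := by
    refine kx_ext fun q x => ?_
    have hux : u (T.par X x) = T.par Y (u x) := congrArg (fun f => f x) (S_par hu.1)
    have hpy : ∀ y : T.H Y, ev (T.par Y y) = ev y := fun y => by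
      rw [ev, ev, T.par_par Y y, add_comm]
    have hpo : ∀ y : T.H Y, od (T.par Y y) = -od y := fun y => by
      rw [od, od, T.par_par Y y, ← smul_neg, neg_sub]
    rw [LinearMap.comp_apply, LinearMap.comp_apply, h1, map_add, map_add, ex_kx, ex_kx, ex_kx,
      h2, h2, hux, hpy, hpo, LinearMap.id_apply, LinearMap.id_apply, LinearMap.id_apply,
      par_ev, par_od]
    have e1 : (kx (ev q) (ev (u x)) : T.H (T.ten Q Y)) + kx (ev q) (od (u x)) =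
        kx (ev q) (u x) := by
      rw [← kx_add_right, ev_add_od]
    have e2 : (kx (od q) (ev (u x)) : T.H (T.ten Q Y)) + kx (-od q) (-od (u x)) =
        kx (od q) (u x) := by
      have : (kx (-od q) (-od (u x)) : T.H (T.ten Q Y)) = kx (od q) (od (u x)) := by
        rw [← neg_one_smul K (od q), ← neg_one_smul K (od (u x)), kx_smul_left, kx_smul_right,
          smul_smul, neg_one_mul, neg_neg, one_smul]
      rw [this, ← kx_add_right, ev_add_od]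
    rw [e1, e2, ← kx_add_left, ev_add_od]
  rw [key]
  exact (num1 T _ _ _).2 _ ((num1 T _ _ _).1 _ (num2a T h X Y Q u hu) s' hs') s hs

end Pool.Agent.Y564.ZI
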